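import Pool.Agent.Helper61.GT.Goals

/-!
# Project GT (MP_552bae_an): packet GS (helper57), Gram-Schmidt
-/

set_option autoImplicit false

namespace Pool.Agent.Helper57.GT

open TensorProduct Filter Topology Pool.Agent.Helper61.SS Pool.Agent.Helper61.GT ComplexConjugate

universe u v w

section

variable {A : Type u} [NonUnitalCStarAlgebra A] (g : A →ₗ[ℝ] ℝ)

/-- `g` of the hermitian part. -/
noncomputable def fr0 : A →ₗ[ℝ] ℝ where
  toFun a := g ((1 / 2 : ℝ) • (a + star a))
  map_add' a b := by
    rw [← map_add]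
    congr 1
    rw [star_add, ← smul_add]
    congr 1
    abel
  map_smul' c a := by
    rw [RingHom.id_apply, ← map_smul]
    congr 1
    rw [star_smul, star_trivial, ← smul_add, smul_comm]

theorem abs_g_le {K : ℝ} (hK : ∀ h, g h ≤ K * ‖h‖) (h : A) : |g h| ≤ K * ‖h‖ := by
  rw [abs_le]
  constructor
  · have h1 := hK (-h)
    rw [map_neg, norm_neg] at h1
    linarith
  · exact hK h

theorem fr0_le {K : ℝ} (hK : ∀ h, g h ≤ K * ‖h‖) (a : A) : ‖fr0 g a‖ ≤ K * ‖a‖ := by
  rw [Real.norm_eq_abs]
  have h1 := abs_g_le g hK ((1 / 2 : ℝ) • (a + star a))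
  have hK0 : 0 ≤ K * ‖a‖ := le_trans (abs_nonneg _) (abs_g_le g hK a)
  refine le_trans h1 ?_
  have h2 : ‖(1 / 2 : ℝ) • (a + star a)‖ ≤ ‖a‖ := by
    rw [norm_smul]
    have h3 := norm_add_le a (star a)
    rw [norm_star] at h3
    rw [Real.norm_of_nonneg (by norm_num)]
    linarith
  rcases le_or_gt 0 K with h4 | h4
  · exact mul_le_mul_of_nonneg_left h2 h4
  · have h5 : ‖a‖ = 0 := by
      by_contra h6
      have h7 : 0 < ‖a‖ := lt_of_le_of_ne (norm_nonneg _) (Ne.symm h6)
      nlinarith
    have h6 : a = 0 := norm_eq_zero.1 h5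
    subst h6
    simp

/-- The complex functional. -/
noncomputable def Gc (K : ℝ) (hK : ∀ h, g h ≤ K * ‖h‖) : A →L[ℂ] ℂ :=
  StrongDual.extendRCLike (𝕜 := ℂ) ((fr0 g).mkContinuous K (fr0_le g hK))

variable {K : ℝ} (hK : ∀ h, g h ≤ K * ‖h‖)

theorem Gc_apply (x : A) : Gc g K hK x = (fr0 g x : ℂ) - Complex.I * (fr0 g (Complex.I • x) : ℂ) := by
  unfold Gc
  rw [StrongDual.extendRCLike_apply]
  rfl

theorem fr0_star (x : A) : fr0 g (star x) = fr0 g x := by
  show g _ = g _
  rw [star_star, add_comm]

theorem fr0_self {h : A} (hh : IsSelfAdjoint h) : fr0 g h = g h := by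
  show g ((1 / 2 : ℝ) • (h + star h)) = g h
  rw [hh.star_eq, ← two_smul ℝ h, smul_smul]
  norm_num

theorem fr0_I (x : A) : fr0 g (Complex.I • star x) = - fr0 g (Complex.I • x) := by
  have h1 : star (Complex.I • x) = -(Complex.I • star x) := by
    rw [star_smul]
    simp
  rw [← fr0_star g (Complex.I • x), h1, map_neg, neg_neg]

theorem Gc_star (x : A) : Gc g K hK (star x) = conj (Gc g K hK x) := by
  rw [Gc_apply, Gc_apply, fr0_star, fr0_I]
  simp

theorem Gc_self {h : A} (hh : IsSelfAdjoint h) : Gc g K hK h = (g h : ℂ) := by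
  have h1 := fr0_I g h
  rw [hh.star_eq] at h1
  have h2 : fr0 g (Complex.I • h) = 0 := by linarith
  rw [Gc_apply, fr0_self g hh, h2]
  simp

/-- The sesquilinear form. -/
noncomputable def fm (a b : A) : ℂ := Gc g K hK (star a * b + b * star a)

/-- The quadratic form. -/
noncomputable def q (a : A) : ℝ := g (star a * a + a * star a)

theorem fm_self (a : A) : fm g hK a a = (q g a : ℂ) := by
  unfold fm q
  rw [Gc_self]
  exact (IsSelfAdjoint.star_mul_self a).add (IsSelfAdjoint.mul_star_self a)

theorem fm_conj (a b : A) : fm g hK b a = conj (fm g hK a b) := by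
  unfold fm
  rw [← Gc_star]
  congr 1
  simp only [star_add, star_mul, star_star]

theorem fm_sub (a b c : A) : fm g hK a (b - c) = fm g hK a b - fm g hK a c := by
  unfold fm
  rw [← map_sub]
  congr 1
  noncomm_ring

theorem fm_smul (a b : A) (z : ℂ) : fm g hK a (z • b) = z * fm g hK a b := by
  unfold fm
  have h1 : star a * z • b + z • b * star a = z • (star a * b + b * star a) := by
    rw [mul_smul_comm, smul_mul_assoc, smul_add]
  rw [h1, map_smul, smul_eq_mul]

theorem fm_sub' (a b c : A) : fm g hK (b - c) a = fm g hK b a - fm g hK c a := by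
  rw [fm_conj, fm_sub, map_sub, ← fm_conj, ← fm_conj]

theorem fm_smul' (a b : A) (z : ℂ) : fm g hK (z • b) a = conj z * fm g hK b a := by
  rw [fm_conj, fm_smul, map_mul, ← fm_conj]

/-- The functional `b ↦ ⟨w, b⟩`. -/
noncomputable def fmL (w : A) : A →L[ℂ] ℂ :=
  (Gc g K hK).comp (ContinuousLinearMap.mul ℂ A (star w) + (ContinuousLinearMap.mul ℂ A).flip (star w))

theorem fmL_apply (w b : A) : fmL g hK w b = fm g hK w b := rfl

/-- The projection onto `w`. -/
noncomputable def Pw (w : A) : A →L[ℂ] A := (fmL g hK w).smulRight (((q g w : ℂ))⁻¹ • w)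

theorem Pw_apply (w b : A) : Pw g hK w b = ((q g w : ℂ)⁻¹ * fm g hK w b) • w := by
  unfold Pw
  rw [ContinuousLinearMap.smulRight_apply, fmL_apply, smul_smul, mul_comm]

theorem q_sub (w b : A) (hw : q g w ≠ 0) :
    q g (b - Pw g hK w b) = q g b - Complex.normSq (fm g hK w b) / q g w := by
  have hw' : (q g w : ℂ) ≠ 0 := by exact_mod_cast hw
  have h1 : (q g (b - Pw g hK w b) : ℂ) =
      ((q g b - Complex.normSq (fm g hK w b) / q g w : ℝ) : ℂ) := by
    rw [← fm_self g hK, Pw_apply]
    set β := fm g hK w b with hβ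
    rw [fm_sub, fm_sub', fm_sub', fm_smul, fm_smul, fm_smul', fm_smul', fm_self, fm_self,
      fm_conj g hK w b, ← hβ, map_mul, map_inv₀, Complex.conj_ofReal]
    push_cast
    rw [Complex.normSq_eq_conj_mul_self]
    field_simp
    ring
  exact_mod_cast h1

theorem Pw_self (w : A) (hw : q g w ≠ 0) : Pw g hK w w = w := by
  have hw' : (q g w : ℂ) ≠ 0 := by exact_mod_cast hw
  rw [Pw_apply, fm_self, inv_mul_cancel₀ hw', one_smul]

theorem q_nonneg (hg : ∀ x : A, IsSelfAdjoint x → 0 ≤ g (x * x)) (a : A) : 0 ≤ q g a := by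
  have h1 := realPart_add_I_smul_imaginaryPart a
  set x : A := (realPart a : A) with hx
  set y : A := (imaginaryPart a : A) with hy
  have hxs : IsSelfAdjoint x := (realPart a).2
  have hys : IsSelfAdjoint y := (imaginaryPart a).2
  have h2 : star a * a + a * star a = (2 : ℝ) • (x * x) + (2 : ℝ) • (y * y) := by
    have h5 : star (Complex.I • y) = -(Complex.I • y) := by
      rw [star_smul, hys.star_eq]
      simp
    have h6 : (Complex.I • y) * (Complex.I • y) = -(y * y) := by
      rw [smul_mul_assoc, mul_smul_comm, smul_smul, Complex.I_mul_I, neg_smul, one_smul]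
    rw [← h1, star_add, h5, hxs.star_eq]
    have h7 : (x + -(Complex.I • y)) * (x + Complex.I • y) +
        (x + Complex.I • y) * (x + -(Complex.I • y)) =
        (2 : ℝ) • (x * x) - (2 : ℝ) • ((Complex.I • y) * (Complex.I • y)) := by
      rw [two_smul, two_smul]
      generalize Complex.I • y = z
      noncomm_ring
    rw [h7, h6, smul_neg, sub_neg_eq_add]
  unfold q
  rw [h2, map_add, map_smul, map_smul, smul_eq_mul, smul_eq_mul]
  have h3 := hg x hxs
  have h4 := hg y hys
  positivity

end

/-- PACKET GS. -/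
theorem gGS : G_GS.{u} := by
  intro A _ g K hK hg F
  have hq := q_nonneg g hg
  classical
  induction F using Finset.induction_on with
  | empty =>
    refine ⟨0, ?_, ?_, ?_⟩
    · rw [ContinuousLinearMap.toLinearMap_zero, LinearMap.range_zero]
      infer_instance
    · intro b
      simp
    · intro a ha
      simp at ha
  | insert a F haF ih =>
    obtain ⟨S, hS1, hS2, hS3⟩ := ih
    by_cases hw : q g (a - S a) = 0
    · refine ⟨S, hS1, hS2, ?_⟩
      intro b hb
      rcases Finset.mem_insert.1 hb with rfl | hb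
      · exact hw
      · exact hS3 b hb
    · have key : ∀ b, b - (S + (Pw g hK (a - S a)).comp (ContinuousLinearMap.id ℂ A - S)) b =
          (b - S b) - Pw g hK (a - S a) (b - S b) := by
        intro b
        show b - (S b + Pw g hK (a - S a) (b - S b)) = _
        abel
      have hle : ∀ b, q g ((b - S b) - Pw g hK (a - S a) (b - S b)) ≤ q g (b - S b) := by
        intro b
        rw [q_sub g hK _ _ hw]
        have h1 : 0 ≤ Complex.normSq (fm g hK (a - S a) (b - S b)) / q g (a - S a) :=
          div_nonneg (Complex.normSq_nonneg _) (hq _)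
        linarith
      refine ⟨S + (Pw g hK (a - S a)).comp (ContinuousLinearMap.id ℂ A - S), ?_, ?_, ?_⟩
      · have : FiniteDimensional ℂ (Submodule.span ℂ {a - S a}) :=
          FiniteDimensional.span_singleton ℂ _
        have h1 : LinearMap.range ((S + (Pw g hK (a - S a)).comp
            (ContinuousLinearMap.id ℂ A - S) : A →L[ℂ] A) : A →ₗ[ℂ] A) ≤
            LinearMap.range (S : A →ₗ[ℂ] A) ⊔ Submodule.span ℂ {a - S a} := by
          rintro _ ⟨b, rfl⟩
          refine Submodule.add_mem_sup ⟨b, rfl⟩ ?_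
          show Pw g hK (a - S a) (b - S b) ∈ _
          rw [Pw_apply]
          exact Submodule.smul_mem _ _ (Submodule.mem_span_singleton_self _)
        exact Submodule.finiteDimensional_of_le h1
      · intro b
        rw [key b]
        exact le_trans (hle b) (hS2 b)
      · intro b hb
        rw [key b]
        rcases Finset.mem_insert.1 hb with rfl | hb
        · rw [Pw_self g hK _ hw, sub_self]
          simp
        · apply le_antisymm _ (hq _)
          have h1 : q g (b - S b) = 0 := hS3 b hb
          rw [← h1]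
          exact hle b

end Pool.Agent.Helper57.GT
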