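import Pool.Agent.Helper57.GT.GS
import Pool.Agent.Helper14.SS.REP
import Pool.Agent.Helper35.SS.SLI
import Pool.Agent.Helper96.SS.EXT

/-!
# Project GT (MP_552bae_an): packet VAN (helper57)
-/

set_option autoImplicit false

namespace Pool.Agent.Helper57.GT

open TensorProduct Filter Topology Pool.Agent.Helper61.SS Pool.Agent.Helper61.GT ComplexConjugate

universe u v w

section

variable {A : Type u} [NonUnitalCStarAlgebra A] (g : A →ₗ[ℝ] ℝ)

theorem q_eq (a : A) : q g a = 2 * g ((realPart a : A) * (realPart a : A)) +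
    2 * g ((imaginaryPart a : A) * (imaginaryPart a : A)) := by
  have h1 := realPart_add_I_smul_imaginaryPart a
  set x : A := (realPart a : A) with hx
  set y : A := (imaginaryPart a : A) with hy
  have hxs : IsSelfAdjoint x := (realPart a).2
  have hys : IsSelfAdjoint y := (imaginaryPart a).2
  have h2 : star a * a + a * star a = (2 : ℝ) • (x * x) + (2 : ℝ) • (y * y) := by
    have h5 : star (Complex.I • y) = -(Complex.I • y) := by
      rw [star_smul, hys.star_eq]
      simp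
    have h6 : (Complex.I • y) * (Complex.I • y) = -(y * y) := by
      rw [smul_mul_assoc, mul_smul_comm, smul_smul, Complex.I_mul_I, neg_smul, one_smul]
    rw [← h1, star_add, h5, hxs.star_eq]
    have h7 : (x + -(Complex.I • y)) * (x + Complex.I • y) +
        (x + Complex.I • y) * (x + -(Complex.I • y)) =
        (2 : ℝ) • (x * x) - (2 : ℝ) • ((Complex.I • y) * (Complex.I • y)) := by
      rw [two_smul, two_smul]
      generalize Complex.I • y = z
      noncomm_ring
    rw [h7, h6, smul_neg, sub_neg_eq_add]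
  unfold q
  rw [h2, map_add, map_smul, map_smul, smul_eq_mul, smul_eq_mul]

variable {B : Type v} [NormedAddCommGroup B] [NormedSpace ℂ B] (φ : A →L[ℂ] B →L[ℂ] ℂ)

theorem phi_le (hφ : ∀ (x : A) (y : B), IsSelfAdjoint x → ‖y‖ ≤ 1 → ‖φ x y‖ ^ 2 ≤ g (x * x))
    (a : A) (b : B) (hb : ‖b‖ ≤ 1) : ‖φ a b‖ ^ 2 ≤ q g a := by
  have h1 := realPart_add_I_smul_imaginaryPart a
  rw [q_eq]
  set x : A := (realPart a : A) with hx
  set y : A := (imaginaryPart a : A) with hy
  have hxs : IsSelfAdjoint x := (realPart a).2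
  have hys : IsSelfAdjoint y := (imaginaryPart a).2
  have h2 : φ a b = φ x b + Complex.I * φ y b := by
    rw [← h1, map_add, map_smul]
    rfl
  have h3 : ‖φ a b‖ ≤ ‖φ x b‖ + ‖φ y b‖ := by
    rw [h2]
    refine (norm_add_le _ _).trans ?_
    rw [norm_mul, Complex.norm_I, one_mul]
  have h4 := hφ x b hxs hb
  have h5 := hφ y b hys hb
  have h6 := norm_nonneg (φ a b)
  nlinarith [sq_nonneg (‖φ x b‖ - ‖φ y b‖), norm_nonneg (φ x b), norm_nonneg (φ y b)]

theorem phi_le' (hφ : ∀ (x : A) (y : B), IsSelfAdjoint x → ‖y‖ ≤ 1 → ‖φ x y‖ ^ 2 ≤ g (x * x))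
    {ε : ℝ} (hε : 0 ≤ ε) (a : A) (ha : q g a ≤ ε ^ 2) (b : B) : ‖φ a b‖ ≤ ε * ‖b‖ := by
  rcases eq_or_ne b 0 with rfl | hb
  · simp
  have hb0 : 0 < ‖b‖ := norm_pos_iff.2 hb
  have hb0' : (‖b‖ : ℂ) ≠ 0 := by exact_mod_cast hb0.ne'
  have h1 : ‖((‖b‖ : ℂ)⁻¹) • b‖ ≤ 1 := by
    rw [norm_smul, norm_inv, Complex.norm_real, norm_norm, inv_mul_cancel₀ hb0.ne']
  have h2 := (phi_le g φ hφ a _ h1).trans ha
  have h3 : ‖φ a (((‖b‖ : ℂ)⁻¹) • b)‖ ≤ ε := by
    exact abs_le_of_sq_le_sq' h2 hε |>.2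
  rw [map_smul, norm_smul, norm_inv, Complex.norm_real, norm_norm, inv_mul_le_iff₀ hb0] at h3
  linarith

theorem q_le {K : ℝ} (hK : ∀ h, g h ≤ K * ‖h‖) (a : A) : q g a ≤ |K| * 2 * ‖a‖ ^ 2 := by
  unfold q
  have h1 := hK (star a * a + a * star a)
  have h2 : ‖star a * a + a * star a‖ ≤ 2 * ‖a‖ ^ 2 := by
    refine (norm_add_le _ _).trans ?_
    have h3 := norm_mul_le (star a) a
    have h4 := norm_mul_le a (star a)
    rw [norm_star] at h3 h4
    nlinarith
  refine h1.trans ?_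
  have h3 : K * ‖star a * a + a * star a‖ ≤ |K| * ‖star a * a + a * star a‖ :=
    mul_le_mul_of_nonneg_right (le_abs_self K) (norm_nonneg _)
  have h4 : |K| * ‖star a * a + a * star a‖ ≤ |K| * (2 * ‖a‖ ^ 2) :=
    mul_le_mul_of_nonneg_left h2 (abs_nonneg K)
  linarith

end

/-- PACKET VAN. -/
theorem gVAN : G_VAN.{u, v, w} := by
  intro hNUN hHB hGS A B C _ _ _ _ _ j hj u hu
  by_contra hu0
  obtain ⟨L, hL⟩ := SeparatingDual.exists_ne_zero (R := ℂ) hu0
  apply hL
  -- the form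
  have hjn := Pool.Agent.Helper35.SS.j_le j hj
  let φ : A →L[ℂ] B →L[ℂ] ℂ := LinearMap.mkContinuous₂ (j.compr₂ (L : C →ₗ[ℂ] ℂ)) ‖L‖ (by
    intro a b
    have h1 : ‖L (j a b)‖ ≤ ‖L‖ * ‖j a b‖ := L.le_opNorm _
    refine h1.trans ?_
    rw [mul_assoc]
    exact mul_le_mul_of_nonneg_left (hjn a b) (norm_nonneg _))
  have hφL : ∀ a b, φ a b = L (j a b) := fun a b => rfl
  obtain ⟨K, hK⟩ := hNUN A B φ
  obtain ⟨g, K', hg1, hg2⟩ := hHB A B φ K hK
  have hgpos : ∀ x : A, IsSelfAdjoint x → 0 ≤ g (x * x) := fun x hx =>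
    le_trans (sq_nonneg _) (hg2 x 0 hx (by simp))
  obtain ⟨a, b, ha, hb, hab⟩ := Pool.Agent.Helper14.SS.gREP A B C j hj u
  have hq0 : Tendsto (fun n => |K'| * 2 * ‖a n‖ ^ 2) atTop (𝓝 0) := by
    have h1 : Tendsto (fun n => |K'| * 2 * ‖a n‖ ^ 2) atTop (𝓝 (|K'| * 2 * ‖(0 : A)‖ ^ 2)) :=
      ((ha.norm).pow 2).const_mul _
    simpa using h1
  have main : ∀ ε : ℝ, 0 < ε → ‖L u‖ ≤ ε * ∑' n, ‖b n‖ := by
    intro ε hε
    have hev : ∀ᶠ n in atTop, |K'| * 2 * ‖a n‖ ^ 2 < ε ^ 2 :=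
      hq0.eventually_lt_const (by positivity)
    obtain ⟨N, hN⟩ := eventually_atTop.1 hev
    classical
    obtain ⟨S, hfin, hS1, hS2⟩ := hGS A g K' hg1 hgpos ((Finset.range N).image a)
    have hqS : ∀ n, q g (a n - S (a n)) ≤ ε ^ 2 := by
      intro n
      rcases lt_or_ge n N with hn | hn
      · have h1 : q g (a n - S (a n)) = 0 :=
          hS2 (a n) (Finset.mem_image_of_mem _ (Finset.mem_range.2 hn))
        rw [h1]
        positivity
      · exact (hS1 (a n)).trans ((q_le g hg1 (a n)).trans (hN n hn).le)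
    -- coordinates
    let R := LinearMap.range (S : A →ₗ[ℂ] A)
    let bs := Module.finBasis ℂ R
    let S' : A →L[ℂ] R := S.codRestrict R (fun x => ⟨x, rfl⟩)
    let f : Fin (Module.finrank ℂ R) → A →L[ℂ] ℂ := fun i =>
      (LinearMap.toContinuousLinearMap (bs.coord i)).comp S'
    have hSx : ∀ x, S x = ∑ i, f i x • (bs i : A) := by
      intro x
      have h1 : (∑ i, bs.repr (S' x) i • bs i : R) = S' x := bs.sum_repr _
      have h2 := congrArg (fun y : R => (y : A)) h1
      simp only [Submodule.coe_sum, Submodule.coe_smul] at h2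
      have h3 : ((S' x : R) : A) = S x := rfl
      rw [h3] at h2
      rw [← h2]
      rfl
    have hzero : HasSum (fun n => φ (S (a n)) (b n)) 0 := by
      have hi : ∀ i, HasSum (fun n => f i (a n) * φ (bs i : A) (b n)) 0 := by
        intro i
        obtain ⟨Q, hQ⟩ := Pool.Agent.Helper96.SS.gEXT A B C ℂ j hj
          (ContinuousLinearMap.smulRight (f i) (φ (bs i : A)))
        have hQ' : ∀ a b, Q (j a b) = f i a * φ (bs i : A) b := by
          intro a b
          rw [hQ]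
          rfl
        have h1 : HasSum (fun n => Q (j (a n) (b n))) (Q u) := hab.mapL Q
        rw [hu (f i) (φ (bs i : A)) Q hQ'] at h1
        simpa only [hQ'] using h1
      have hs : HasSum (fun n => ∑ i, f i (a n) * φ (bs i : A) (b n)) (∑ i, (0 : ℂ)) :=
        hasSum_sum fun i _ => hi i
      rw [Finset.sum_const_zero] at hs
      have he : ∀ n, φ (S (a n)) (b n) = ∑ i, f i (a n) * φ (bs i : A) (b n) := by
        intro n
        rw [hSx (a n), map_sum, ContinuousLinearMap.sum_apply]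
        apply Finset.sum_congr rfl
        intro i _
        rw [map_smul]
        rfl
      simpa only [he] using hs
    have hLu : HasSum (fun n => φ (a n) (b n)) (L u) := hab.mapL L
    have hdiff : HasSum (fun n => φ (a n - S (a n)) (b n)) (L u) := by
      have h1 := hLu.sub hzero
      rw [sub_zero] at h1
      have h2 : (fun n => φ (a n - S (a n)) (b n))
          = fun n => φ (a n) (b n) - φ (S (a n)) (b n) := by
        funext n
        rw [map_sub]
        rfl
      rw [h2]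
      exact h1
    have hbd : ∀ n, ‖φ (a n - S (a n)) (b n)‖ ≤ ε * ‖b n‖ := fun n =>
      phi_le' g φ hg2 hε.le _ (hqS n) (b n)
    have hsum : HasSum (fun n => ε * ‖b n‖) (ε * ∑' n, ‖b n‖) := hb.hasSum.mul_left ε
    have := tsum_of_norm_bounded hsum hbd
    rwa [hdiff.tsum_eq] at this
  have hT : 0 ≤ ∑' n, ‖b n‖ := tsum_nonneg fun n => norm_nonneg _
  have h0 : ‖L u‖ ≤ 0 := by
    apply le_of_forall_pos_le_add
    intro δ hδ
    have h1 := main (δ / (1 + ∑' n, ‖b n‖)) (by positivity)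
    have h2 : δ / (1 + ∑' n, ‖b n‖) * ∑' n, ‖b n‖ ≤ δ := by
      rw [div_mul_eq_mul_div, div_le_iff₀ (by positivity)]
      nlinarith
    linarith
  exact norm_le_zero_iff.mp h0

end Pool.Agent.Helper57.GT
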